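import Pool.Agent.R562.SC.Hess3
import Pool.Agent.R562.ND.Cubic

/-!
# Third derivatives of polynomial functions, of the determinant and of the trace of the cube
-/

set_option autoImplicit false
set_option linter.unusedSectionVars false

namespace Pool.Agent.R562.SC

open Topology Filter Pool.Agent.Y538.Net MvPolynomial Pool.Agent.R562.ND

section analytic

variable {𝕜 : Type} [NontriviallyNormedField 𝕜] {ι : Type} [Fintype ι]

lemma hasFDerivAt_poly (p : MvPolynomial ι 𝕜) (x : ι → 𝕜) : ∃ L : (ι → 𝕜) →L[𝕜] 𝕜,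
    HasFDerivAt (fun v => eval v p) L x ∧ ∀ h, L h = eval x (dd h p) := by
  induction p using MvPolynomial.induction_on with
  | C c =>
    refine ⟨0, ?_, fun h => ?_⟩
    · simp only [eval_C]
      exact hasFDerivAt_const _ _
    · rw [dd_C, map_zero]
      rfl
  | add p q hp hq =>
    obtain ⟨L, h1, h2⟩ := hp
    obtain ⟨L', h1', h2'⟩ := hq
    refine ⟨L + L', ?_, fun h => ?_⟩
    · simp only [map_add]
      exact h1.add h1'
    · rw [_root_.add_apply, h2, h2', map_add, map_add]
  | mul_X p i hp =>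
    obtain ⟨L, h1, h2⟩ := hp
    refine ⟨eval x p • ContinuousLinearMap.proj i + x i • L, ?_, fun h => ?_⟩
    · simp only [map_mul, eval_X]
      exact h1.mul (ContinuousLinearMap.proj (R := 𝕜) (φ := fun _ : ι => 𝕜) i).hasFDerivAt
    · rw [_root_.add_apply, _root_.smul_apply, _root_.smul_apply, h2, dd_mul, dd_X, map_add,
        map_mul, map_mul, eval_C, eval_X]
      rfl

lemma fderiv_poly (p : MvPolynomial ι 𝕜) (x h : ι → 𝕜) :
    fderiv 𝕜 (fun v => eval v p) x h = eval x (dd h p) := by
  obtain ⟨L, h1, h2⟩ := hasFDerivAt_poly p x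
  rw [h1.fderiv, h2]

lemma contDiff_poly (p : MvPolynomial ι 𝕜) (n : WithTop ℕ∞) :
    ContDiff 𝕜 n (fun v : ι → 𝕜 => eval v p) := by
  induction p using MvPolynomial.induction_on with
  | C c =>
    simp only [eval_C]
    exact contDiff_const
  | add p q hp hq =>
    simp only [map_add]
    exact hp.add hq
  | mul_X p i hp =>
    simp only [map_mul, eval_X]
    exact hp.mul (contDiff_apply 𝕜 𝕜 i)

lemma H2_poly (p : MvPolynomial ι 𝕜) (x h1 h2 : ι → 𝕜) :
    H2 (fun v => eval v p) x h1 h2 = eval x (dd h1 (dd h2 p)) := by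
  have h3 : ContDiffAt 𝕜 2 (fun v : ι → 𝕜 => eval v p) x := (contDiff_poly p 2).contDiffAt
  have h4 := (diff2 h3).hasFDerivAt.clm_apply (hasFDerivAt_const h2 x)
  rw [ContinuousLinearMap.comp_zero, zero_add] at h4
  have h5 : (fun y => fderiv 𝕜 (fun v : ι → 𝕜 => eval v p) y h2) = fun y => eval y (dd h2 p) := by
    funext y
    exact fderiv_poly p y h2
  rw [h5] at h4
  have h6 := congrArg (fun L => L h1) h4.fderiv
  rw [fderiv_poly] at h6
  exact h6.symm

lemma T3_poly (p : MvPolynomial ι 𝕜) (x h1 h2 h3 : ι → 𝕜) :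
    T3 (fun v => eval v p) x h1 h2 h3 = D3 p x h1 h2 h3 := by
  unfold T3 D3
  simp only [H2_poly]
  exact fderiv_poly _ _ _

end analytic

section algebra

variable {P : Type} [CommRing P] {n : ℕ}

/-- the entries of a matrix -/
def entM (A : Matrix (Fin n) (Fin n) P) : Fin n × Fin n → P := fun v => A v.1 v.2

/-- the generic matrix -/
noncomputable abbrev gen (P : Type) [CommRing P] (n : ℕ) :
    Matrix (Fin n) (Fin n) (MvPolynomial (Fin n × Fin n) P) :=
  Matrix.mvPolynomialX (Fin n) (Fin n) P

/-- the entrywise derivative -/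
noncomputable def dMat (x : Fin n × Fin n → P)
    (M : Matrix (Fin n) (Fin n) (MvPolynomial (Fin n × Fin n) P)) :
    Matrix (Fin n) (Fin n) (MvPolynomial (Fin n × Fin n) P) := M.map (dd x)

lemma dMat_mul (x : Fin n × Fin n → P)
    (M N : Matrix (Fin n) (Fin n) (MvPolynomial (Fin n × Fin n) P)) :
    dMat x (M * N) = dMat x M * N + M * dMat x N := by
  ext1 i j
  simp only [dMat, Matrix.map_apply, Matrix.mul_apply, Matrix.add_apply, map_sum, dd_mul,
    Finset.sum_add_distrib]
  rw [add_comm]
  congr 1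
  exact Finset.sum_congr rfl fun k _ => mul_comm _ _

lemma dMat_add (x : Fin n × Fin n → P)
    (M N : Matrix (Fin n) (Fin n) (MvPolynomial (Fin n × Fin n) P)) :
    dMat x (M + N) = dMat x M + dMat x N := by
  ext1 i j
  simp only [dMat, Matrix.map_apply, Matrix.add_apply, map_add]

lemma dMat_C (x : Fin n × Fin n → P) (A : Matrix (Fin n) (Fin n) P) :
    dMat x (A.map C) = 0 := by
  ext1 i j
  simp only [dMat, Matrix.map_apply, Matrix.zero_apply, dd_C]

lemma dMat_gen (A : Matrix (Fin n) (Fin n) P) : dMat (entM A) (gen P n) = A.map C := by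
  ext1 i j
  simp only [dMat, Matrix.map_apply, Matrix.mvPolynomialX_apply, dd_X, entM]

lemma dMat_diag (x : Fin n × Fin n → P) (q : MvPolynomial (Fin n × Fin n) P) :
    dMat x (q • (1 : Matrix (Fin n) (Fin n) (MvPolynomial (Fin n × Fin n) P))) =
      dd x q • 1 := by
  ext1 i j
  simp only [dMat, Matrix.map_apply, Matrix.smul_apply, smul_eq_mul, Matrix.one_apply]
  split_ifs
  · rw [mul_one, mul_one]
  · rw [mul_zero, mul_zero, map_zero]

/-- evaluation at the matrix `B` -/
noncomputable def evB (B : Matrix (Fin n) (Fin n) P)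
    (M : Matrix (Fin n) (Fin n) (MvPolynomial (Fin n × Fin n) P)) :
    Matrix (Fin n) (Fin n) P := (eval (entM B)).mapMatrix M

lemma evB_mul (B : Matrix (Fin n) (Fin n) P)
    (M N : Matrix (Fin n) (Fin n) (MvPolynomial (Fin n × Fin n) P)) :
    evB B (M * N) = evB B M * evB B N := map_mul _ _ _

lemma evB_add (B : Matrix (Fin n) (Fin n) P)
    (M N : Matrix (Fin n) (Fin n) (MvPolynomial (Fin n × Fin n) P)) :
    evB B (M + N) = evB B M + evB B N := map_add _ _ _

lemma evB_C (B A : Matrix (Fin n) (Fin n) P) : evB B (A.map C) = A := by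
  ext i j
  simp [evB]

lemma evB_gen (B : Matrix (Fin n) (Fin n) P) : evB B (gen P n) = B := by
  ext i j
  simp [evB, entM]

lemma evB_diag (B : Matrix (Fin n) (Fin n) P) (q : MvPolynomial (Fin n × Fin n) P) :
    evB B (q • (1 : Matrix (Fin n) (Fin n) (MvPolynomial (Fin n × Fin n) P))) =
      eval (entM B) q • 1 := by
  ext i j
  simp only [evB, RingHom.mapMatrix_apply, Matrix.map_apply, Matrix.smul_apply, smul_eq_mul,
    Matrix.one_apply]
  split_ifs <;> simp

lemma eval_trace (B : Matrix (Fin n) (Fin n) P)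
    (M : Matrix (Fin n) (Fin n) (MvPolynomial (Fin n × Fin n) P)) :
    eval (entM B) M.trace = (evB B M).trace := by
  simp [Matrix.trace, evB]

lemma dd_trace (x : Fin n × Fin n → P)
    (M : Matrix (Fin n) (Fin n) (MvPolynomial (Fin n × Fin n) P)) :
    dd x M.trace = (dMat x M).trace := by
  simp [Matrix.trace, dMat]

/-! ### The trace of the cube -/

/-- the polynomial `tr A³` -/
noncomputable def cubeP (P : Type) [CommRing P] (n : ℕ) : MvPolynomial (Fin n × Fin n) P :=
  (gen P n * gen P n * gen P n).trace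

lemma eval_cubeP (B : Matrix (Fin n) (Fin n) P) : eval (entM B) (cubeP P n) = (B ^ 3).trace := by
  unfold cubeP
  rw [eval_trace, evB_mul, evB_mul, evB_gen, pow_succ, pow_two]

theorem D3_cubeP (B x y z : Matrix (Fin n) (Fin n) P) :
    D3 (cubeP P n) (entM B) (entM x) (entM y) (entM z) =
      3 * ((x * y * z).trace + (x * z * y).trace) := by
  have hd0 : ∀ (x : Fin n × Fin n → P) (A : Matrix (Fin n) (Fin n) P)
      (M : Matrix (Fin n) (Fin n) (MvPolynomial (Fin n × Fin n) P)),
      dMat x (M * A.map C) = dMat x M * A.map C := by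
    intro x A M
    rw [dMat_mul, dMat_C, mul_zero, add_zero]
  have hd1 : ∀ (x : Fin n × Fin n → P) (A : Matrix (Fin n) (Fin n) P)
      (M : Matrix (Fin n) (Fin n) (MvPolynomial (Fin n × Fin n) P)),
      dMat x (A.map C * M) = A.map C * dMat x M := by
    intro x A M
    rw [dMat_mul, dMat_C, zero_mul, zero_add]
  unfold D3 cubeP
  rw [dd_trace, dd_trace, dd_trace, eval_trace]
  have key : evB B (dMat (entM x) (dMat (entM y) (dMat (entM z) (gen P n * gen P n * gen P n)))) =
      z * y * x + z * x * y + (y * z * x + x * z * y) + (y * x * z + x * y * z) := by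
    simp only [dMat_mul, dMat_gen, dMat_add, hd0, hd1, dMat_C, zero_mul, zero_add,
      evB_add, evB_mul, evB_C, add_mul]
  rw [key]
  simp only [Matrix.trace_add]
  have t1 : (z * y * x).trace = (x * z * y).trace := by
    rw [Matrix.trace_mul_comm, ← mul_assoc]
  have t2 : (z * x * y).trace = (x * y * z).trace := by
    rw [mul_assoc, Matrix.trace_mul_comm]
  have t3 : (y * z * x).trace = (x * y * z).trace := by
    rw [Matrix.trace_mul_comm, ← mul_assoc]
  have t4 : (y * x * z).trace = (x * z * y).trace := by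
    rw [mul_assoc, Matrix.trace_mul_comm]
  rw [t1, t2, t3, t4]
  ring

/-! ### The determinant -/

lemma dd_prod (x : Fin n × Fin n → P) {κ : Type} [DecidableEq κ] (s : Finset κ)
    (f : κ → MvPolynomial (Fin n × Fin n) P) :
    dd x (∏ i ∈ s, f i) = ∑ i ∈ s, ∏ j ∈ s, (Function.update f i (dd x (f i))) j := by
  induction s using Finset.induction_on with
  | empty => simp
  | insert a s ha ih =>
    rw [Finset.prod_insert ha, dd_mul, ih, Finset.sum_insert ha, Finset.prod_insert ha,
      Function.update_self]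
    have e1 : ∏ j ∈ s, (Function.update f a (dd x (f a))) j = ∏ j ∈ s, f j := by
      apply Finset.prod_congr rfl
      intro j hj
      rw [Function.update_of_ne]
      rintro rfl
      exact ha hj
    have e2 : ∀ i ∈ s, ∏ j ∈ insert a s, (Function.update f i (dd x (f i))) j
        = f a * ∏ j ∈ s, (Function.update f i (dd x (f i))) j := by
      intro i hi
      rw [Finset.prod_insert ha, Function.update_of_ne]
      rintro rfl
      exact ha hi
    rw [e1, Finset.sum_congr rfl e2, ← Finset.mul_sum]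
    ring

/-- Jacobi's formula. -/
theorem dd_det (x : Fin n × Fin n → P)
    (N : Matrix (Fin n) (Fin n) (MvPolynomial (Fin n × Fin n) P)) :
    dd x N.det = (N.adjugate * dMat x N).trace := by
  have h0 : (N.adjugate * dMat x N).trace = ∑ i, ∑ j, N.adjugate j i * dd x (N i j) := by
    rw [Matrix.trace]
    simp only [Matrix.diag_apply, Matrix.mul_apply, dMat, Matrix.map_apply]
    exact Finset.sum_comm
  have h1 : ∀ i : Fin n, ∑ k, N.adjugate i k * dd x (N k i)
      = (N.updateCol i (fun k => dd x (N k i))).det := by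
    intro i
    rw [← Matrix.cramer_apply, Matrix.cramer_eq_adjugate_mulVec]
    rfl
  rw [h0, Finset.sum_comm, Finset.sum_congr rfl (fun i _ => h1 i), Matrix.det_apply, map_sum]
  have h2 : ∀ σ : Equiv.Perm (Fin n),
      dd x (Equiv.Perm.sign σ • ∏ i, N (σ i) i)
      = ∑ i, Equiv.Perm.sign σ • ∏ j, (N.updateCol i (fun k => dd x (N k i))) (σ j) j := by
    intro σ
    rw [Units.smul_def, (dd x).map_smul_of_tower, dd_prod, Finset.smul_sum]
    apply Finset.sum_congr rfl
    intro i _
    congr 1
    apply Finset.prod_congr rfl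
    intro j _
    by_cases hj : j = i
    · subst hj
      rw [Function.update_self, Matrix.updateCol_self]
    · rw [Function.update_of_ne hj, Matrix.updateCol_ne hj]
  rw [Finset.sum_congr rfl (fun σ _ => h2 σ), Finset.sum_comm]
  apply Finset.sum_congr rfl
  intro i _
  rw [Matrix.det_apply]

/-- the polynomial `det A` -/
noncomputable def detP (P : Type) [CommRing P] (n : ℕ) : MvPolynomial (Fin n × Fin n) P :=
  (gen P n).det

lemma eval_detP (B : Matrix (Fin n) (Fin n) P) : eval (entM B) (detP P n) = B.det := by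
  unfold detP
  rw [RingHom.map_det]
  congr 1
  exact evB_gen B

theorem D3_detP (B x y z : Matrix (Fin n) (Fin n) P) (hB : IsUnit B.det)
    (hx : x.trace = 0) (hy : y.trace = 0) (hxy : (x * y).trace = 0) :
    D3 (detP P n) (entM B) (entM (B * x)) (entM (B * y)) (entM (B * z)) =
      B.det * ((x * y * z).trace + (y * x * z).trace) := by
  set 𝔸 := gen P n with h𝔸
  have hBi : B⁻¹ * B = 1 := Matrix.nonsing_inv_mul _ hB
  have hgA : ∀ w : Matrix (Fin n) (Fin n) P, dMat (entM w) 𝔸 = w.map C := dMat_gen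
  have hgB : evB B 𝔸 = B := evB_gen B
  have hadj0 : evB B 𝔸.adjugate = B.det • B⁻¹ := by
    have h1 : evB B 𝔸.adjugate = B.adjugate := by
      unfold evB
      rw [RingHom.map_adjugate]
      exact congrArg _ (evB_gen B)
    rw [h1, Matrix.inv_def, smul_smul, Ring.mul_inverse_cancel _ hB, one_smul]
  have hmul : 𝔸 * 𝔸.adjugate = 𝔸.det • 1 := Matrix.mul_adjugate _
  have hJ : ∀ w : Matrix (Fin n) (Fin n) P, dd (entM w) 𝔸.det = (𝔸.adjugate * w.map C).trace := by
    intro w
    rw [dd_det, dMat_gen]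
  -- first derivatives
  have hd1 : ∀ w : Matrix (Fin n) (Fin n) P, eval (entM B) (dd (entM (B * w)) 𝔸.det) =
      B.det * w.trace := by
    intro w
    rw [hJ, eval_trace, evB_mul, evB_C, hadj0, Matrix.smul_mul, ← mul_assoc, hBi, one_mul,
      Matrix.trace_smul, smul_eq_mul]
  have ha1 : ∀ w : Matrix (Fin n) (Fin n) P, w.trace = 0 →
      evB B (dMat (entM (B * w)) 𝔸.adjugate) = -(B.det • (w * B⁻¹)) := by
    intro w hw
    have h1 := congrArg (fun M => evB B (dMat (entM (B * w)) M)) hmul
    simp only [dMat_mul, hgA, dMat_diag, evB_add, evB_mul, evB_C, evB_diag, hgB, hadj0,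
      hd1, hw, mul_zero, zero_smul] at h1
    have h2 : B * evB B (dMat (entM (B * w)) 𝔸.adjugate) = -(B * w * (B.det • B⁻¹)) :=
      eq_neg_of_add_eq_zero_right h1
    have h3 := congrArg (fun M => B⁻¹ * M) h2
    simp only [← mul_assoc, hBi, one_mul, mul_neg, Matrix.mul_smul] at h3
    exact h3
  -- second derivatives
  have hd2 : ∀ w v : Matrix (Fin n) (Fin n) P, w.trace = 0 → (w * v).trace = 0 →
      eval (entM B) (dd (entM (B * w)) (dd (entM (B * v)) 𝔸.det)) = 0 := by
    intro w v hw hwv
    rw [hJ, dd_trace, dMat_mul, dMat_C, mul_zero, add_zero, eval_trace, evB_mul, evB_C, ha1 w hw,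
      neg_mul, Matrix.smul_mul, mul_assoc, ← mul_assoc B⁻¹ B v, hBi, one_mul, Matrix.trace_neg,
      Matrix.trace_smul, hwv, smul_zero, neg_zero]
  have ha2 : evB B (dMat (entM (B * x)) (dMat (entM (B * y)) 𝔸.adjugate)) =
      B.det • (x * y * B⁻¹) + B.det • (y * x * B⁻¹) := by
    have h1 := congrArg (fun M => evB B (dMat (entM (B * x)) (dMat (entM (B * y)) M))) hmul
    simp only [dMat_mul, hgA, dMat_diag, dMat_add, dMat_C, zero_mul, zero_add, evB_add,
      evB_mul, evB_C, evB_diag, hgB, ha1 x hx, ha1 y hy, hd2 x y hx hxy, zero_smul] at h1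
    have h2 : B * evB B (dMat (entM (B * x)) (dMat (entM (B * y)) 𝔸.adjugate)) =
        B * y * (B.det • (x * B⁻¹)) + B * x * (B.det • (y * B⁻¹)) := by
      have h3 : ∀ a b c : Matrix (Fin n) (Fin n) P, -a + (-b + c) = 0 → c = a + b := by
        intro a b c h
        have : c = a + b + (-a + (-b + c)) := by abel
        rw [this, h, add_zero]
      refine h3 _ _ _ ?_
      rw [← mul_neg, ← mul_neg]
      exact h1
    have h3 := congrArg (fun M => B⁻¹ * M) h2
    simp only [← mul_assoc, hBi, one_mul, mul_add, Matrix.mul_smul] at h3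
    rw [h3, add_comm]
  unfold D3 detP
  rw [← h𝔸, hJ, dd_trace, dd_trace, dMat_mul, dMat_C, mul_zero, add_zero, dMat_mul, dMat_C,
    mul_zero, add_zero, eval_trace, evB_mul, evB_C, ha2, add_mul, Matrix.smul_mul, Matrix.smul_mul,
    Matrix.trace_add, Matrix.trace_smul, Matrix.trace_smul, smul_eq_mul, smul_eq_mul]
  have h4 : ∀ u : Matrix (Fin n) (Fin n) P, u * B⁻¹ * (B * z) = u * z := by
    intro u
    rw [mul_assoc, ← mul_assoc B⁻¹ B z, hBi, one_mul]
  rw [h4, h4]
  ring

end algebra

end Pool.Agent.R562.SC
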