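import Pool.Agent.R562.SC.Main3
import Pool.Agent.R562.SC.Poly
import Pool.Agent.R562.ND.Main

/-!
# The determinant and the trace of the cube by probabilistic algorithms with smooth operations
-/

set_option autoImplicit false
set_option linter.unusedSectionVars false

namespace Pool.Agent.R562.SC

open Topology Filter Pool.Agent.Y538.Net Pool.Agent.H515R2.MMR MeasureTheory MvPolynomial
open Pool.Agent.R562.ND (D3 dd tr3)

section

variable {𝕜 : Type} [NontriviallyNormedField 𝕜]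

/-- `n × n` matrices as inputs, given by their entries -/
abbrev Ents (𝕜 : Type) (n : ℕ) : Type := Fin n × Fin n → 𝕜

/-- the matrix with the given entries -/
def mat {n : ℕ} (x : Ents 𝕜 n) : Matrix (Fin n) (Fin n) 𝕜 := Matrix.of fun i j => x (i, j)

/-- the determinant -/
noncomputable def detF (n : ℕ) (x : Ents 𝕜 n) : 𝕜 := (mat x).det

/-- the trace of the cube -/
noncomputable def cubeF (n : ℕ) (x : Ents 𝕜 n) : 𝕜 := (mat x ^ 3).trace

lemma entM_mat {n : ℕ} (x : Ents 𝕜 n) : entM (mat x) = x := rfl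

lemma detF_eq (n : ℕ) : (detF n : Ents 𝕜 n → 𝕜) = fun v => eval v (detP 𝕜 n) := by
  funext x
  exact (eval_detP (mat x)).symm

lemma cubeF_eq (n : ℕ) : (cubeF n : Ents 𝕜 n → 𝕜) = fun v => eval v (cubeP 𝕜 n) := by
  funext x
  exact (eval_cubeP (mat x)).symm

lemma tr2 {n : ℕ} (a b c d : Fin n) :
    (Matrix.single a b (1 : 𝕜) * Matrix.single c d 1).trace = if b = c ∧ d = a then 1 else 0 := by
  by_cases h1 : b = c
  · subst h1
    rw [Matrix.single_mul_single_same]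
    by_cases h2 : d = a
    · subst h2
      simp
    · rw [if_neg (fun h => h2 h.2), Matrix.trace_single_eq_of_ne _ _ _ (fun h => h2 h.symm)]
  · rw [Matrix.single_mul_single_of_ne (h := h1), if_neg (fun h => h1 h.1), Matrix.trace_zero]

theorem cubicAt_det (n : ℕ) (x : Ents 𝕜 n) (hx : detF n x ≠ 0) :
    CubicAt (n / 3) (detF n) x := by
  obtain ⟨m, hm⟩ : ∃ m, n / 3 = m := ⟨_, rfl⟩
  rw [hm]
  have hmn : 3 * m ≤ n := by omega
  rw [detF_eq]
  refine ⟨(contDiff_poly _ _).contDiffAt, fun i j => entM (mat x *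
      Matrix.single ⟨i, by omega⟩ ⟨m + j, by omega⟩ 1),
    fun j k => entM (mat x * Matrix.single ⟨m + j, by omega⟩ ⟨2 * m + k, by omega⟩ 1),
    fun k l => entM (mat x * Matrix.single ⟨2 * m + k, by omega⟩ ⟨l, by omega⟩ 1),
    detF n x, hx, fun i j j' k k' l => ?_⟩
  have hi := i.2
  have hj := j.2
  have hj' := j'.2
  have hk := k.2
  have hk' := k'.2
  have hl := l.2
  have key := D3_detP (mat x)
    (Matrix.single (⟨i, by omega⟩ : Fin n) ⟨m + j, by omega⟩ (1 : 𝕜))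
    (Matrix.single (⟨m + j', by omega⟩ : Fin n) ⟨2 * m + k, by omega⟩ (1 : 𝕜))
    (Matrix.single (⟨2 * m + k', by omega⟩ : Fin n) ⟨l, by omega⟩ (1 : 𝕜))
    (isUnit_iff_ne_zero.mpr hx)
    (Matrix.trace_single_eq_of_ne _ _ _ (fun h => by
      have := congrArg Fin.val h
      simp only at this
      omega))
    (Matrix.trace_single_eq_of_ne _ _ _ (fun h => by
      have := congrArg Fin.val h
      simp only at this
      omega))
    (by
      rw [tr2, if_neg]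
      rintro ⟨-, h⟩
      have := congrArg Fin.val h
      simp only at this
      omega)
  rw [T3_poly]
  rw [entM_mat] at key
  rw [key, tr3, tr3]
  have e1 : (mat x).det = detF n x := rfl
  rw [e1]
  simp only [Fin.mk.injEq]
  rw [if_neg (c := 2 * m + (k : ℕ) = i ∧ m + (j : ℕ) = 2 * m + k' ∧ m + (j' : ℕ) = l)
    (by omega), add_zero]
  by_cases hc : j = j' ∧ k = k' ∧ l = i
  · obtain ⟨rfl, rfl, rfl⟩ := hc
    rw [if_pos ⟨rfl, rfl, rfl⟩, if_pos ⟨rfl, rfl, rfl⟩, mul_one]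
  · have hc' : ¬ ((j : ℕ) = j' ∧ (k : ℕ) = k' ∧ (l : ℕ) = i) := by
      rintro ⟨h1, h2, h3⟩
      exact hc ⟨Fin.ext h1, Fin.ext h2, Fin.ext h3⟩
    rw [if_neg hc, if_neg (by omega), mul_zero]

theorem cubicAt_cube (σ : 𝕜 →+* ℂ) (n : ℕ) (x : Ents 𝕜 n) :
    CubicAt (n / 3) (cubeF n) x := by
  have : CharZero 𝕜 := (RingHom.charZero_iff σ.injective).mpr inferInstance
  obtain ⟨m, hm⟩ : ∃ m, n / 3 = m := ⟨_, rfl⟩
  rw [hm]
  have hmn : 3 * m ≤ n := by omega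
  rw [cubeF_eq]
  refine ⟨(contDiff_poly _ _).contDiffAt, fun i j => entM (
      Matrix.single ⟨i, by omega⟩ ⟨m + j, by omega⟩ 1),
    fun j k => entM (Matrix.single ⟨m + j, by omega⟩ ⟨2 * m + k, by omega⟩ 1),
    fun k l => entM (Matrix.single ⟨2 * m + k, by omega⟩ ⟨l, by omega⟩ 1),
    3, by norm_num, fun i j j' k k' l => ?_⟩
  have hi := i.2
  have hj := j.2
  have hj' := j'.2
  have hk := k.2
  have hk' := k'.2
  have hl := l.2
  rw [T3_poly]
  have key := D3_cubeP (mat x)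
    (Matrix.single (⟨i, by omega⟩ : Fin n) ⟨m + j, by omega⟩ (1 : 𝕜))
    (Matrix.single (⟨m + j', by omega⟩ : Fin n) ⟨2 * m + k, by omega⟩ (1 : 𝕜))
    (Matrix.single (⟨2 * m + k', by omega⟩ : Fin n) ⟨l, by omega⟩ (1 : 𝕜))
  rw [entM_mat] at key
  rw [key, tr3, tr3]
  simp only [Fin.mk.injEq]
  rw [if_neg (c := m + (j : ℕ) = 2 * m + k' ∧ (l : ℕ) = m + j' ∧ (i : ℕ) = 2 * m + k)
    (by omega), add_zero]
  by_cases hc : j = j' ∧ k = k' ∧ l = i
  · obtain ⟨rfl, rfl, rfl⟩ := hc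
    rw [if_pos ⟨rfl, rfl, rfl⟩, if_pos ⟨rfl, rfl, rfl⟩, mul_one]
  · have hc' : ¬ ((j : ℕ) = j' ∧ (k : ℕ) = k' ∧ (l : ℕ) = i) := by
      rintro ⟨h1, h2, h3⟩
      exact hc ⟨Fin.ext h1, Fin.ext h2, Fin.ext h3⟩
    rw [if_neg hc, if_neg (by omega), mul_zero]

end

section

variable {𝕜 : Type} [NontriviallyNormedField 𝕜] {E : Type} [NormedAddCommGroup E]
  [NormedSpace 𝕜 E] {a b : ℕ}

/-- **Fast runs are right with probability `0`, outside a meagre set.** -/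
theorem pr_meagre (σ : 𝕜 →+* ℂ) {m : ℕ} (t : Alg3 𝕜 E a b) (F : E → 𝕜) :
    IsMeagre {x : E | CubicAt m F x ∧
      t.pr x (fun N => N.Gives F x ∧ 3 * (a : ℝ) ^ 2 * N.L < (m : ℝ) ^ omega) ≠ 0} := by
  rcases Nat.eq_zero_or_pos m with rfl | hm
  · have hω := Pool.Agent.Y538.Par.two_le_omega
    refine (IsMeagre.empty (X := E)).mono ?_
    rintro x ⟨-, hx⟩
    obtain ⟨w, -, hw⟩ := pr_ne_zero hx
    rw [Nat.cast_zero, Real.zero_rpow (by linarith)] at hw
    exact absurd hw (not_lt.mpr (by positivity))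
  · refine (few σ hm t.N F).mono ?_
    rintro x ⟨h1, h2⟩
    exact ⟨h1, pr_ne_zero h2⟩

/-- **Some inputs are hard.** -/
theorem good_input (σ : 𝕜 →+* ℂ) {m : ℕ} (t : Alg3 𝕜 E a b) (F : E → 𝕜) (U : Set E)
    (p : ENNReal) (hU : ¬ IsMeagre U) (hUF : ∀ x ∈ U, CubicAt m F x)
    (h : ∀ x ∈ U, p ≤ t.pr x fun N => N.Gives F x) :
    ∃ x ∈ U, p ≤ t.pr x fun N => N.Gives F x ∧ (m : ℝ) ^ omega ≤ 3 * (a : ℝ) ^ 2 * N.L := by
  have h1 := pr_meagre σ (m := m) t F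
  obtain ⟨x, hxU, hx⟩ : ∃ x ∈ U, x ∉ {x : E | CubicAt m F x ∧
      t.pr x (fun N => N.Gives F x ∧ 3 * (a : ℝ) ^ 2 * N.L < (m : ℝ) ^ omega) ≠ 0} := by
    by_contra hcon
    push Not at hcon
    exact hU (h1.mono hcon)
  refine ⟨x, hxU, (h x hxU).trans ?_⟩
  have hx0 : t.pr x (fun N => N.Gives F x ∧ 3 * (a : ℝ) ^ 2 * N.L < (m : ℝ) ^ omega) = 0 := by
    by_contra hcon
    exact hx ⟨hUF x hxU, hcon⟩
  have hsub : {ω | (t.N (t.sel ω x)).Gives F x} ⊆
      {ω | (t.N (t.sel ω x)).Gives F x ∧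
        3 * (a : ℝ) ^ 2 * (t.N (t.sel ω x)).L < (m : ℝ) ^ omega} ∪
      {ω | (t.N (t.sel ω x)).Gives F x ∧
        (m : ℝ) ^ omega ≤ 3 * (a : ℝ) ^ 2 * (t.N (t.sel ω x)).L} := by
    intro ω hω
    rcases lt_or_ge (3 * (a : ℝ) ^ 2 * (t.N (t.sel ω x)).L) ((m : ℝ) ^ omega) with h2 | h2
    · exact Or.inl ⟨hω, h2⟩
    · exact Or.inr ⟨hω, h2⟩
  calc t.pr x (fun N => N.Gives F x) ≤ t.μ _ + t.μ _ :=
        (measure_mono hsub).trans (measure_union_le _ _)
    _ = t.pr x fun N => N.Gives F x ∧ (m : ℝ) ^ omega ≤ 3 * (a : ℝ) ^ 2 * N.L := by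
        have h3 : t.μ {ω | (t.N (t.sel ω x)).Gives F x ∧
          3 * (a : ℝ) ^ 2 * (t.N (t.sel ω x)).L < (m : ℝ) ^ omega} = 0 := hx0
        rw [h3, zero_add]
        rfl

end

/-- The algorithm outputs `F x` with positive probability on the inputs `x` in some set which is
not meagre, and it never makes more than `c` operations. -/
def Alg3.Works {𝕜 : Type} [NontriviallyNormedField 𝕜] {E : Type} [NormedAddCommGroup E]
    [NormedSpace 𝕜 E] {a b : ℕ} (t : Alg3 𝕜 E a b) (F : E → 𝕜) (c : ℝ) : Prop :=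
  ¬ IsMeagre {x : E | t.pr x (fun N => N.Gives F x) ≠ 0} ∧ ∀ w, ((t.N w).L : ℝ) ≤ c

theorem exponent {𝕜 : Type} [NontriviallyNormedField 𝕜] (σ : 𝕜 →+* ℂ) {a b : ℕ}
    (F : ∀ n, Ents 𝕜 n → 𝕜) (τ D : ℝ)
    (hF : ∀ n, ∀ A : Alg3 𝕜 (Ents 𝕜 n) a b, ¬ IsMeagre {x | A.pr x (fun N => N.Gives (F n) x) ≠ 0} →
      ¬ IsMeagre {x | CubicAt (n / 3) (F n) x ∧ A.pr x (fun N => N.Gives (F n) x) ≠ 0})
    (h : ∃ᶠ n : ℕ in atTop, ∃ t : Alg3 𝕜 (Ents 𝕜 n) a b, t.Works (F n) (D * (n : ℝ) ^ τ)) :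
    omega ≤ τ := by
  have hω := Pool.Agent.Y538.Par.two_le_omega
  refine NV.le_of_frequently (c := (1 / 6 : ℝ) ^ omega) (D := 3 * (a : ℝ) ^ 2 * D)
    (Real.rpow_pos_of_pos (by norm_num) _) ?_
  refine (h.and_eventually (eventually_ge_atTop 3)).mono ?_
  rintro n ⟨⟨t, h1, h2⟩, hn⟩
  have h3 := hF n t h1
  have h4 := pr_meagre σ (m := n / 3) t (F n)
  obtain ⟨x, ⟨hx1, hx2⟩, hx3⟩ : ∃ x ∈ {x | CubicAt (n / 3) (F n) x ∧
      t.pr x (fun N => N.Gives (F n) x) ≠ 0}, x ∉ {x | CubicAt (n / 3) (F n) x ∧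
      t.pr x (fun N => N.Gives (F n) x ∧
        3 * (a : ℝ) ^ 2 * N.L < ((n / 3 : ℕ) : ℝ) ^ omega) ≠ 0} := by
    by_contra hcon
    push Not at hcon
    exact h3 (h4.mono hcon)
  have h5 : t.pr x (fun N => N.Gives (F n) x ∧
        3 * (a : ℝ) ^ 2 * N.L < ((n / 3 : ℕ) : ℝ) ^ omega) = 0 := by
    by_contra hcon
    exact hx3 ⟨hx1, hcon⟩
  have h6 : ¬ 3 * (a : ℝ) ^ 2 * (D * (n : ℝ) ^ τ) < ((n / 3 : ℕ) : ℝ) ^ omega := by
    intro hlt
    refine hx2 ?_
    rw [← h5]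
    unfold Alg3.pr
    congr 1
    ext ω
    simp only [Set.mem_ofPred_eq]
    constructor
    · intro h7
      refine ⟨h7, lt_of_le_of_lt ?_ hlt⟩
      exact mul_le_mul_of_nonneg_left (h2 _) (by positivity)
    · exact fun h7 => h7.1
  have h7 : (1 / 6 : ℝ) * n ≤ ((n / 3 : ℕ) : ℝ) := by
    have h3 : n ≤ 6 * (n / 3) := by omega
    have h4 : (n : ℝ) ≤ 6 * ((n / 3 : ℕ) : ℝ) := by exact_mod_cast h3
    linarith
  calc (1 / 6 : ℝ) ^ omega * (n : ℝ) ^ omega ≤ ((n / 3 : ℕ) : ℝ) ^ omega := by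
        rw [← Real.mul_rpow (by norm_num) (by positivity)]
        exact Real.rpow_le_rpow (by positivity) h7 (by linarith)
    _ ≤ 3 * (a : ℝ) ^ 2 * (D * (n : ℝ) ^ τ) := not_lt.mp h6
    _ = 3 * (a : ℝ) ^ 2 * D * (n : ℝ) ^ τ := by ring

/-- The singular matrices form a meagre set. -/
theorem meagre_det {𝕜 : Type} [NontriviallyNormedField 𝕜] (n : ℕ) :
    IsMeagre {x : Ents 𝕜 n | detF n x = 0} := by
  classical
  have hcont : Continuous (detF n : Ents 𝕜 n → 𝕜) := by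
    rw [detF_eq]
    exact (contDiff_poly _ 0).continuous
  have hclosed : IsClosed {x : Ents 𝕜 n | detF n x = 0} := isClosed_eq hcont continuous_const
  refine IsNowhereDense.isMeagre ?_
  unfold IsNowhereDense
  rw [hclosed.closure_eq]
  by_contra hne
  obtain ⟨x, hx⟩ := Set.nonempty_iff_ne_empty.mpr hne
  -- the line from `x` to the identity matrix
  let γ : 𝕜 → Ents 𝕜 n := fun t v => (1 - t) * x v + t * (if v.1 = v.2 then 1 else 0)
  have hγc : Continuous γ := by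
    refine continuous_pi fun v => ?_
    exact ((continuous_const.sub continuous_id).mul continuous_const).add
      (continuous_id.mul continuous_const)
  have hγ0 : γ 0 = x := by
    funext v
    simp [γ]
  let q : Polynomial 𝕜 := Matrix.det (Matrix.of fun i j : Fin n =>
    (1 - Polynomial.X) * Polynomial.C (x (i, j)) +
      Polynomial.X * Polynomial.C (if i = j then 1 else 0))
  have hq : ∀ t, q.eval t = detF n (γ t) := by
    intro t
    unfold detF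
    have h1 : q.eval t = (Polynomial.evalRingHom t) q := rfl
    rw [h1, RingHom.map_det]
    congr 1
    ext i j
    simp only [RingHom.mapMatrix_apply, Matrix.map_apply, Matrix.of_apply, mat, γ,
      Polynomial.coe_evalRingHom, Polynomial.eval_add, Polynomial.eval_mul, Polynomial.eval_sub,
      Polynomial.eval_one, Polynomial.eval_X, Polynomial.eval_C]
  have hq1 : q ≠ 0 := by
    intro h0
    have h1 := hq 1
    rw [h0, Polynomial.eval_zero] at h1
    have h2 : mat (γ 1) = 1 := by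
      ext i j
      simp [mat, γ, Matrix.one_apply]
    unfold detF at h1
    rw [h2, Matrix.det_one] at h1
    exact zero_ne_one h1
  have hnb : {t : 𝕜 | γ t ∈ interior {x : Ents 𝕜 n | detF n x = 0}} ∈ 𝓝 (0 : 𝕜) := by
    refine hγc.continuousAt.preimage_mem_nhds ?_
    rw [hγ0]
    exact isOpen_interior.mem_nhds hx
  have hinf := infinite_of_mem_nhds (0 : 𝕜) hnb
  refine hinf (Set.Finite.subset (q.roots.toFinset.finite_toSet) ?_)
  intro t ht
  have ht' : γ t ∈ interior {x : Ents 𝕜 n | detF n x = 0} := ht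
  have h1 : γ t ∈ {x : Ents 𝕜 n | detF n x = 0} := interior_subset ht'
  have h1 : detF n (γ t) = 0 := h1
  simp only [Finset.mem_coe, Multiset.mem_toFinset]
  rw [Polynomial.mem_roots hq1, Polynomial.IsRoot, hq, h1]

theorem exponent_det {𝕜 : Type} [NontriviallyNormedField 𝕜] (σ : 𝕜 →+* ℂ) {a b : ℕ}
    (τ D : ℝ) (h : ∃ᶠ n : ℕ in atTop, ∃ t : Alg3 𝕜 (Ents 𝕜 n) a b,
      t.Works (detF n) (D * (n : ℝ) ^ τ)) : omega ≤ τ := by
  refine exponent σ (fun n => detF n) τ D (fun n A hA hcon => ?_) h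
  refine hA ((hcon.union (meagre_det n)).mono ?_)
  intro x hx
  by_cases h0 : detF n x = 0
  · exact Or.inr h0
  · exact Or.inl ⟨cubicAt_det n x h0, hx⟩

theorem exponent_cube {𝕜 : Type} [NontriviallyNormedField 𝕜] (σ : 𝕜 →+* ℂ) {a b : ℕ}
    (τ D : ℝ) (h : ∃ᶠ n : ℕ in atTop, ∃ t : Alg3 𝕜 (Ents 𝕜 n) a b,
      t.Works (cubeF n) (D * (n : ℝ) ^ τ)) : omega ≤ τ := by
  refine exponent σ (fun n => cubeF n) τ D (fun n A hA hcon => ?_) h
  refine hA (hcon.mono ?_)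
  intro x hx
  exact ⟨cubicAt_cube σ n x, hx⟩

end Pool.Agent.R562.SC
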