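import Pool.Agent.Y538.Net.Hess

/-!
# Third derivatives of the functions computed by a network
-/

set_option autoImplicit false
set_option linter.unusedSectionVars false

namespace Pool.Agent.R562.SC

open Topology Filter Pool.Agent.Y538.Net

variable {𝕜 : Type} [NontriviallyNormedField 𝕜] {E : Type} [NormedAddCommGroup E]
  [NormedSpace 𝕜 E]

/-- `g 0, …, g (L - 1)` are the outputs of the gates of a network with input in the open set `D`:
the `l`-th gate applies a map `φ : 𝕜 ^ a → 𝕜 ^ b` to `a` linear combinations of affine functions of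
the input and of the outputs of the previous gates, and `φ` is three times continuously
differentiable at the values that occur. -/
def IsNet3 (a b L : ℕ) (D : Set E) (g : ℕ → Fin b → E → 𝕜) : Prop :=
  IsOpen D ∧ ∀ l < L, ∃ (u : Fin a → E → 𝕜) (φ : (Fin a → 𝕜) → Fin b → 𝕜),
    (∀ i, u i ∈ Aff g l) ∧
      ∀ x ∈ D, ContDiffAt 𝕜 3 φ (fun i => u i x) ∧ ∀ o, g l o x = φ (fun i => u i x) o

lemma IsNet3.net {a b L : ℕ} {D : Set E} {g : ℕ → Fin b → E → 𝕜} (h : IsNet3 a b L D g) :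
    IsNet a b L D g := by
  refine ⟨h.1, fun l hl => ?_⟩
  obtain ⟨u, φ, hu, hφ⟩ := h.2 l hl
  exact ⟨u, φ, hu, fun x hx => ⟨(hφ x hx).1.of_le (by norm_num), (hφ x hx).2⟩⟩

/-- Third derivative in the directions `h1`, `h2`, `h3`. -/
noncomputable def T3 (f : E → 𝕜) (x h1 h2 h3 : E) : 𝕜 := fderiv 𝕜 (fun y => H2 f y h2 h3) x h1

lemma ev2 {F : Type} [NormedAddCommGroup F] [NormedSpace 𝕜 F] {f : E → F} {x : E}
    (h : ContDiffAt 𝕜 3 f x) : ∀ᶠ y in 𝓝 x, ContDiffAt 𝕜 2 f y :=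
  (h.of_le (by norm_num : (2 : WithTop ℕ∞) ≤ 3)).eventually (by norm_num)

/-- the second derivative is differentiable -/
lemma diff3 {f : E → 𝕜} {x : E} (h : ContDiffAt 𝕜 3 f x) (h2 h3 : E) :
    DifferentiableAt 𝕜 (fun y => H2 f y h2 h3) x := by
  have h1 : ContDiffAt 𝕜 2 (fderiv 𝕜 f) x := h.fderiv_right (by norm_num)
  have h2' : ContDiffAt 𝕜 1 (fderiv 𝕜 (fderiv 𝕜 f)) x := h1.fderiv_right (by norm_num)
  have h3' := h2'.differentiableAt (by norm_num)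
  exact (h3'.clm_apply (differentiableAt_const _)).clm_apply (differentiableAt_const _)

lemma T3_add {f g : E → 𝕜} {x : E} (hf : ContDiffAt 𝕜 3 f x) (hg : ContDiffAt 𝕜 3 g x)
    (h1 h2 h3 : E) : T3 (f + g) x h1 h2 h3 = T3 f x h1 h2 h3 + T3 g x h1 h2 h3 := by
  unfold T3
  have e : (fun y => H2 (f + g) y h2 h3) =ᶠ[𝓝 x] (fun y => H2 f y h2 h3 + H2 g y h2 h3) := by
    filter_upwards [ev2 hf, ev2 hg] with y e1 e2
    rw [H2_add e1 e2]
    rfl
  rw [e.fderiv_eq, fderiv_fun_add (diff3 hf h2 h3) (diff3 hg h2 h3)]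
  rfl

lemma T3_smul {f : E → 𝕜} {x : E} (c : 𝕜) (hf : ContDiffAt 𝕜 3 f x) (h1 h2 h3 : E) :
    T3 (c • f) x h1 h2 h3 = c * T3 f x h1 h2 h3 := by
  unfold T3
  have e : (fun y => H2 (c • f) y h2 h3) =ᶠ[𝓝 x] (fun y => c • H2 f y h2 h3) := by
    filter_upwards [ev2 hf] with y e1
    rw [H2_smul c e1]
    rfl
  rw [e.fderiv_eq, fderiv_fun_const_smul (diff3 hf h2 h3)]
  rfl

lemma T3_affine (ℓ : E →L[𝕜] 𝕜) (c : 𝕜) (x h1 h2 h3 : E) : T3 (fun x => ℓ x + c) x h1 h2 h3 = 0 := by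
  unfold T3
  have e : (fun y => H2 (fun x => ℓ x + c) y h2 h3) = fun _ => (0 : 𝕜) := by
    funext y
    rw [H2_affine]
    rfl
  rw [e, fderiv_const_apply]
  rfl

lemma H2_congr_ev {f g : E → 𝕜} {x : E} (h : f =ᶠ[𝓝 x] g) :
    ∀ᶠ y in 𝓝 x, H2 f y = H2 g y := by
  filter_upwards [h.eventually_nhds] with y hy
  exact H2_congr hy

lemma T3_congr {f g : E → 𝕜} {x : E} (h : f =ᶠ[𝓝 x] g) (h1 h2 h3 : E) :
    T3 f x h1 h2 h3 = T3 g x h1 h2 h3 := by
  unfold T3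
  have e : (fun y => H2 f y h2 h3) =ᶠ[𝓝 x] (fun y => H2 g y h2 h3) := by
    filter_upwards [H2_congr_ev h] with y hy
    rw [hy]
  rw [e.fderiv_eq]

/-- First derivative of a composition. -/
lemma D_comp {a : ℕ} {φ : (Fin a → 𝕜) → 𝕜} {u : Fin a → E → 𝕜} {x : E}
    (hu : ∀ i, DifferentiableAt 𝕜 (u i) x) (hφ : DifferentiableAt 𝕜 φ (fun i => u i x)) (h : E) :
    fderiv 𝕜 (fun y => φ (fun i => u i y)) x h =
      ∑ i, fderiv 𝕜 φ (fun i => u i x) (Pi.single i 1) * fderiv 𝕜 (u i) x h := by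
  classical
  have g3 : HasFDerivAt (fun y => (fun i => u i y)) (ContinuousLinearMap.pi fun i => fderiv 𝕜 (u i) x) x :=
    hasFDerivAt_pi.mpr fun i => (hu i).hasFDerivAt
  have g4 := (hφ.hasFDerivAt.comp x g3).fderiv
  have g5 : fderiv 𝕜 (fun y => φ (fun i => u i y)) x = fderiv 𝕜 (φ ∘ fun y => (fun i => u i y)) x :=
    rfl
  rw [g5, g4, ContinuousLinearMap.comp_apply]
  have g6 : (ContinuousLinearMap.pi fun i => fderiv 𝕜 (u i) x) h =
      ∑ i, (fderiv 𝕜 (u i) x h) • (Pi.single i (1 : 𝕜) : Fin a → 𝕜) := by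
    funext j
    rw [Finset.sum_apply]
    simp [Pi.single_apply]
  rw [g6, map_sum]
  refine Finset.sum_congr rfl fun i _ => ?_
  rw [map_smul, smul_eq_mul, mul_comm]

/-- the partial derivatives of `φ` -/
noncomputable def p1 {a : ℕ} (φ : (Fin a → 𝕜) → 𝕜) (i : Fin a) : (Fin a → 𝕜) → 𝕜 :=
  fun v => fderiv 𝕜 φ v (Pi.single i 1)

lemma p1_contDiff {a : ℕ} {φ : (Fin a → 𝕜) → 𝕜} {v : Fin a → 𝕜} {n m : WithTop ℕ∞}
    (h : ContDiffAt 𝕜 n φ v) (hm : m + 1 ≤ n) (i : Fin a) : ContDiffAt 𝕜 m (p1 φ i) v := by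
  have h1 : ContDiffAt 𝕜 m (fderiv 𝕜 φ) v := h.fderiv_right hm
  exact h1.clm_apply contDiffAt_const

/-- Second derivative of a composition. -/
lemma H2_comp' {a : ℕ} {φ : (Fin a → 𝕜) → 𝕜} {u : Fin a → E → 𝕜} {x : E}
    (hu : ∀ i, ContDiffAt 𝕜 2 (u i) x) (hφ : ContDiffAt 𝕜 2 φ (fun i => u i x)) (h1 h2 : E) :
    H2 (fun y => φ (fun i => u i y)) x h1 h2 =
      ∑ i, p1 φ i (fun i => u i x) * H2 (u i) x h1 h2 +
        ∑ i, ∑ j, p1 (p1 φ i) j (fun i => u i x) * (fderiv 𝕜 (u j) x h1 * fderiv 𝕜 (u i) x h2) := by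
  classical
  have hUc : ContDiffAt 𝕜 2 (fun y => (fun i => u i y)) x := contDiffAt_pi.mpr hu
  have hUcont : ContinuousAt (fun y => (fun i => u i y)) x := hUc.continuousAt
  have hchain : ∀ᶠ y in 𝓝 x, fderiv 𝕜 (fun y => φ (fun i => u i y)) y =
      ∑ i, p1 φ i (fun i => u i y) • fderiv 𝕜 (u i) y := by
    have g1 : ∀ᶠ y in 𝓝 x, DifferentiableAt 𝕜 φ (fun i => u i y) := hUcont.eventually (ev1 hφ)
    have g2 : ∀ᶠ y in 𝓝 x, ∀ i, DifferentiableAt 𝕜 (u i) y :=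
      eventually_all.mpr fun i => ev1 (hu i)
    filter_upwards [g1, g2] with y g1 g2
    refine ContinuousLinearMap.ext fun h => ?_
    rw [D_comp g2 g1, _root_.sum_apply]
    rfl
  have hpU : ∀ i, DifferentiableAt 𝕜 (fun y => p1 φ i (fun i => u i y)) x := fun i =>
    DifferentiableAt.comp (g := p1 φ i) (f := fun y => (fun i => u i y)) x
      ((p1_contDiff hφ (m := 1) (by norm_num) i).differentiableAt (by norm_num)) (diff1 hUc)
  have hder : HasFDerivAt (fun y => ∑ i, p1 φ i (fun i => u i y) • fderiv 𝕜 (u i) y)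
      (∑ i, (p1 φ i (fun i => u i x) • fderiv 𝕜 (fderiv 𝕜 (u i)) x +
        (fderiv 𝕜 (fun y => p1 φ i (fun i => u i y)) x).smulRight (fderiv 𝕜 (u i) x))) x :=
    HasFDerivAt.fun_sum fun i _ => (hpU i).hasFDerivAt.smul (diff2 (hu i)).hasFDerivAt
  have hfin : H2 (fun y => φ (fun i => u i y)) x =
      ∑ i, (p1 φ i (fun i => u i x) • fderiv 𝕜 (fderiv 𝕜 (u i)) x +
        (fderiv 𝕜 (fun y => p1 φ i (fun i => u i y)) x).smulRight (fderiv 𝕜 (u i) x)) := by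
    unfold H2
    have g1 : fderiv 𝕜 (fun y => φ (fun i => u i y)) =ᶠ[𝓝 x]
        fun y => ∑ i, p1 φ i (fun i => u i y) • fderiv 𝕜 (u i) y := hchain
    rw [g1.fderiv_eq]
    exact hder.fderiv
  have hpd : ∀ i h, fderiv 𝕜 (fun y => p1 φ i (fun i => u i y)) x h =
      ∑ j, p1 (p1 φ i) j (fun i => u i x) * fderiv 𝕜 (u j) x h := fun i h =>
    D_comp (fun j => diff1 (hu j))
      ((p1_contDiff hφ (m := 1) (by norm_num) i).differentiableAt (by norm_num)) h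
  rw [hfin, _root_.sum_apply, _root_.sum_apply,
    ← Finset.sum_add_distrib]
  refine Finset.sum_congr rfl fun i _ => ?_
  rw [_root_.add_apply, _root_.add_apply,
    _root_.smul_apply, _root_.smul_apply,
    ContinuousLinearMap.smulRight_apply, _root_.smul_apply, hpd, Finset.sum_smul,
    smul_eq_mul]
  congr 1
  refine Finset.sum_congr rfl fun j _ => ?_
  rw [smul_eq_mul]
  ring

/-- Third derivative of a composition. -/
lemma T3_comp {a : ℕ} {φ : (Fin a → 𝕜) → 𝕜} {u : Fin a → E → 𝕜} {x : E}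
    (hu : ∀ i, ContDiffAt 𝕜 3 (u i) x) (hφ : ContDiffAt 𝕜 3 φ (fun i => u i x)) (h1 h2 h3 : E) :
    T3 (fun y => φ (fun i => u i y)) x h1 h2 h3 =
      ∑ i, p1 φ i (fun i => u i x) * T3 (u i) x h1 h2 h3 +
      ∑ i, ∑ j, p1 (p1 φ i) j (fun i => u i x) *
        (fderiv 𝕜 (u j) x h1 * H2 (u i) x h2 h3 + H2 (u j) x h1 h2 * fderiv 𝕜 (u i) x h3 +
          fderiv 𝕜 (u j) x h2 * H2 (u i) x h1 h3) +
      ∑ i, ∑ j, ∑ k, p1 (p1 (p1 φ i) j) k (fun i => u i x) *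
        (fderiv 𝕜 (u k) x h1 * fderiv 𝕜 (u j) x h2 * fderiv 𝕜 (u i) x h3) := by
  classical
  have hUc : ContDiffAt 𝕜 3 (fun y => (fun i => u i y)) x := contDiffAt_pi.mpr hu
  have hUd : DifferentiableAt 𝕜 (fun y => (fun i => u i y)) x := hUc.differentiableAt (by norm_num)
  have hev : (fun y => H2 (fun y => φ (fun i => u i y)) y h2 h3) =ᶠ[𝓝 x] fun y =>
      ∑ i, p1 φ i (fun i => u i y) * H2 (u i) y h2 h3 +
        ∑ i, ∑ j, p1 (p1 φ i) j (fun i => u i y) *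
          (fderiv 𝕜 (u j) y h2 * fderiv 𝕜 (u i) y h3) := by
    have g1 : ∀ᶠ y in 𝓝 x, ContDiffAt 𝕜 2 φ (fun i => u i y) :=
      hUc.continuousAt.eventually (ev2 hφ)
    have g2 : ∀ᶠ y in 𝓝 x, ∀ i, ContDiffAt 𝕜 2 (u i) y :=
      eventually_all.mpr fun i => ev2 (hu i)
    filter_upwards [g1, g2] with y g1 g2
    exact H2_comp' g2 g1 h2 h3
  have hp : ∀ i, DifferentiableAt 𝕜 (p1 φ i) (fun i => u i x) := fun i =>
    (p1_contDiff hφ (m := 2) (by norm_num) i).differentiableAt (by norm_num)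
  have hq : ∀ i j, DifferentiableAt 𝕜 (p1 (p1 φ i) j) (fun i => u i x) := fun i j =>
    (p1_contDiff (p1_contDiff hφ (m := 2) (by norm_num) i) (m := 1) (by norm_num)
      j).differentiableAt (by norm_num)
  have hpU : ∀ i, DifferentiableAt 𝕜 (fun y => p1 φ i (fun i => u i y)) x := fun i =>
    DifferentiableAt.comp (g := p1 φ i) (f := fun y => (fun i => u i y)) x (hp i) hUd
  have hqU : ∀ i j, DifferentiableAt 𝕜 (fun y => p1 (p1 φ i) j (fun i => u i y)) x := fun i j =>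
    DifferentiableAt.comp (g := p1 (p1 φ i) j) (f := fun y => (fun i => u i y)) x (hq i j) hUd
  have hud : ∀ i, DifferentiableAt 𝕜 (u i) x := fun i => (hu i).differentiableAt (by norm_num)
  have hu2 : ∀ i, ContDiffAt 𝕜 2 (u i) x := fun i => (hu i).of_le (by norm_num)
  -- the derivative of the first derivative of `u i`
  have hd1 : ∀ i (h : E), HasFDerivAt (fun y => fderiv 𝕜 (u i) y h)
      (ContinuousLinearMap.flip (H2 (u i) x) h) x := by
    intro i h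
    have h1 := (diff2 (hu2 i)).hasFDerivAt.clm_apply (hasFDerivAt_const h x)
    rw [ContinuousLinearMap.comp_zero, zero_add] at h1
    exact h1
  have hder : HasFDerivAt (fun y => ∑ i, p1 φ i (fun i => u i y) * H2 (u i) y h2 h3 +
        ∑ i, ∑ j, p1 (p1 φ i) j (fun i => u i y) *
          (fderiv 𝕜 (u j) y h2 * fderiv 𝕜 (u i) y h3))
      (∑ i, (p1 φ i (fun i => u i x) • fderiv 𝕜 (fun y => H2 (u i) y h2 h3) x +
          (H2 (u i) x h2 h3) • fderiv 𝕜 (fun y => p1 φ i (fun i => u i y)) x) +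
        ∑ i, ∑ j, (p1 (p1 φ i) j (fun i => u i x) •
            (fderiv 𝕜 (u j) x h2 • ContinuousLinearMap.flip (H2 (u i) x) h3 +
              fderiv 𝕜 (u i) x h3 • ContinuousLinearMap.flip (H2 (u j) x) h2) +
          (fderiv 𝕜 (u j) x h2 * fderiv 𝕜 (u i) x h3) •
            fderiv 𝕜 (fun y => p1 (p1 φ i) j (fun i => u i y)) x)) x := by
    refine HasFDerivAt.add ?_ ?_
    · refine HasFDerivAt.fun_sum fun i _ => ?_
      exact (hpU i).hasFDerivAt.mul (diff3 (hu i) h2 h3).hasFDerivAt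
    · refine HasFDerivAt.fun_sum fun i _ => HasFDerivAt.fun_sum fun j _ => ?_
      exact (hqU i j).hasFDerivAt.mul ((hd1 j h2).mul (hd1 i h3))
  unfold T3
  rw [hev.fderiv_eq, hder.fderiv]
  simp only [_root_.add_apply, _root_.sum_apply, _root_.smul_apply, smul_eq_mul,
    ContinuousLinearMap.flip_apply]
  have e1 : ∀ i, fderiv 𝕜 (fun y => p1 φ i (fun i => u i y)) x h1 =
      ∑ j, p1 (p1 φ i) j (fun i => u i x) * fderiv 𝕜 (u j) x h1 := fun i =>
    D_comp hud (hp i) h1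
  have e2 : ∀ i j, fderiv 𝕜 (fun y => p1 (p1 φ i) j (fun i => u i y)) x h1 =
      ∑ k, p1 (p1 (p1 φ i) j) k (fun i => u i x) * fderiv 𝕜 (u k) x h1 := fun i j =>
    D_comp hud (hq i j) h1
  simp only [e1, e2, Finset.mul_sum, Finset.sum_add_distrib]
  have e3 : ∀ i j k : Fin a, fderiv 𝕜 (u j) x h2 * fderiv 𝕜 (u i) x h3 *
      (p1 (p1 (p1 φ i) j) k (fun i => u i x) * fderiv 𝕜 (u k) x h1) =
      p1 (p1 (p1 φ i) j) k (fun i => u i x) *
        (fderiv 𝕜 (u k) x h1 * fderiv 𝕜 (u j) x h2 * fderiv 𝕜 (u i) x h3) := by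
    intro i j k
    ring
  simp only [e3]
  rw [add_assoc, add_assoc, ← add_assoc (∑ i, ∑ j, H2 (u i) x h2 h3 * _)]
  congr 2
  simp only [← Finset.sum_add_distrib]
  refine Finset.sum_congr rfl fun i _ => Finset.sum_congr rfl fun j _ => ?_
  ring

end Pool.Agent.R562.SC
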