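import Pool.Agent.R562.SC.Net3
import Mathlib.MeasureTheory.Measure.Typeclasses.Probability

/-!
# Scalar functions computed by networks of smooth gates: the lower bound
-/

set_option autoImplicit false
set_option linter.unusedSectionVars false

namespace Pool.Agent.R562.SC

open Topology Filter Pool.Agent.Y538.Net Pool.Agent.H515R2.MMR MeasureTheory

variable {𝕜 : Type} [NontriviallyNormedField 𝕜] {E : Type} [NormedAddCommGroup E]
  [NormedSpace 𝕜 E] {a b : ℕ}

/-- The function `F` is three times continuously differentiable at `x`, and its third derivative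
there contains a nonzero multiple of the tensor of `m × m` matrix multiplication. -/
def CubicAt (m : ℕ) (F : E → 𝕜) (x : E) : Prop :=
  ContDiffAt 𝕜 3 F x ∧ ∃ (X Y Z : Fin m → Fin m → E) (γ : 𝕜), γ ≠ 0 ∧
    ∀ i j j' k k' l, T3 F x (X i j) (Y j' k) (Z k' l) =
      if j = j' ∧ k = k' ∧ l = i then γ else 0

/-- A straight-line program with `L` operations `𝕜 ^ a → 𝕜 ^ b` which is defined on the open set `D`
and outputs the number `f x` on the input `x`: `g 0, …, g (L - 1)` are the outputs of the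
operations. -/
structure Prog (𝕜 : Type) [NontriviallyNormedField 𝕜] (E : Type) [NormedAddCommGroup E]
    [NormedSpace 𝕜 E] (a b : ℕ) where
  L : ℕ
  D : Set E
  g : ℕ → Fin b → E → 𝕜
  f : E → 𝕜
  net : IsNet3 a b L D g
  out : f ∈ Aff g L

/-- The program is defined at `x` and outputs `F x`. -/
def Prog.Gives (N : Prog 𝕜 E a b) (F : E → 𝕜) (x : E) : Prop := x ∈ N.D ∧ N.f x = F x

/-- A probabilistic algorithm with smooth operations: a probability space `Ω` (the random choices),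
countably many straight-line programs `N 0, N 1, …`, and an arbitrary function `sel` which says
which of the programs is run on the input `x` if the outcome of the random choices is `ω` (tests of
any kind and branching are free). -/
structure Alg3 (𝕜 : Type) [NontriviallyNormedField 𝕜] (E : Type) [NormedAddCommGroup E]
    [NormedSpace 𝕜 E] (a b : ℕ) where
  Ω : Type
  [mea : MeasurableSpace Ω]
  μ : Measure Ω
  [prob : IsProbabilityMeasure μ]
  N : ℕ → Prog 𝕜 E a b
  sel : Ω → E → ℕ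

attribute [instance] Alg3.mea Alg3.prob

/-- The probability that the program which is run on the input `x` has the property `P`. -/
noncomputable def Alg3.pr (t : Alg3 𝕜 E a b) (x : E) (P : Prog 𝕜 E a b → Prop) : ENNReal :=
  t.μ {ω | P (t.N (t.sel ω x))}

theorem pr_ne_zero {t : Alg3 𝕜 E a b} {x : E} {P : Prog 𝕜 E a b → Prop} (h : t.pr x P ≠ 0) :
    ∃ w, P (t.N w) := by
  by_contra hcon
  push Not at hcon
  refine h ?_
  have : {ω | P (t.N (t.sel ω x))} = ∅ := by
    ext ω
    simp [hcon]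
  show t.μ {ω | P (t.N (t.sel ω x))} = 0
  rw [this, measure_empty]

/-- **A program near a point.** -/
theorem lower_near (σ : 𝕜 →+* ℂ) {L : ℕ} {D : Set E} {g : ℕ → Fin b → E → 𝕜}
    (hnet : IsNet3 a b L D g) {x : E} (hx : x ∈ D) {f F : E → 𝕜} (hf : f ∈ Aff g L)
    (hfF : f =ᶠ[𝓝 x] F) {m : ℕ} (hm : 1 ≤ m) (X Y Z : Fin m → Fin m → E) (γ : 𝕜) (hγ : γ ≠ 0)
    (h : ∀ i j j' k k' l, T3 F x (X i j) (Y j' k) (Z k' l) =
      if j = j' ∧ k = k' ∧ l = i then γ else 0) :
    (m : ℝ) ^ omega ≤ 3 * a ^ 2 * L := by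
  classical
  obtain ⟨U, hU⟩ := net_cubic hnet hx
  obtain ⟨w1, w2, w3, hw⟩ := hU f hf
  have hid : ∀ i j j' k k' l : Fin m, (if j = j' ∧ k = k' ∧ l = i then (1 : 𝕜) else 0) =
      ∑ s ∈ Finset.range L, ∑ p, ∑ q, γ⁻¹ * (U s p (X i j) * U s q (Y j' k) * w3 s p q (Z k' l) +
          U s p (X i j) * U s q (Z k' l) * w2 s p q (Y j' k) +
          U s p (Y j' k) * U s q (Z k' l) * w1 s p q (X i j)) := by
    intro i j j' k k' l
    have h1 := h i j j' k k' l
    rw [← T3_congr hfF, hw] at h1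
    simp only [← Finset.mul_sum]
    rw [h1]
    split_ifs
    · rw [inv_mul_cancel₀ hγ]
    · rw [mul_zero]
  have hr : HasRank m (L * (a * a) * 3) := by
    refine hasRank_of_hasRankT (I := Fin m) (T := (Fin L × Fin a × Fin a) × Fin 3) (by simp)
      (by simp) ?_
    refine ⟨fun t i j => σ (![U t.1.1 t.1.2.1 (X i j), U t.1.1 t.1.2.1 (X i j),
        w1 t.1.1 t.1.2.1 t.1.2.2 (X i j)] t.2),
      fun t j k => σ (![U t.1.1 t.1.2.2 (Y j k), w2 t.1.1 t.1.2.1 t.1.2.2 (Y j k),
        U t.1.1 t.1.2.1 (Y j k)] t.2),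
      fun t k l => σ (γ⁻¹ * ![w3 t.1.1 t.1.2.1 t.1.2.2 (Z k l), U t.1.1 t.1.2.2 (Z k l),
        U t.1.1 t.1.2.2 (Z k l)] t.2), ?_⟩
    intro i j j' k k' l
    have h1 := congrArg σ (hid i j j' k k' l)
    have h2 : σ (if j = j' ∧ k = k' ∧ l = i then (1 : 𝕜) else 0) =
        if j = j' ∧ k = k' ∧ l = i then 1 else 0 := by
      split_ifs <;> simp
    rw [← h2, h1, Finset.sum_range, Fintype.sum_prod_type, Fintype.sum_prod_type, map_sum]
    refine Finset.sum_congr rfl fun s _ => ?_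
    rw [Fintype.sum_prod_type, map_sum]
    refine Finset.sum_congr rfl fun p _ => ?_
    rw [map_sum]
    refine Finset.sum_congr rfl fun q _ => ?_
    rw [Fin.sum_univ_three]
    simp
    ring
  have h3 := pow_omega_le_rk hm
  have h4 := rk_le hr
  calc (m : ℝ) ^ omega ≤ rk m := h3
    _ ≤ ((L * (a * a) * 3 : ℕ) : ℝ) := by exact_mod_cast h4
    _ = 3 * a ^ 2 * L := by push_cast; ring

/-- **Fast programs are right only on a meagre set.** -/
theorem few (σ : 𝕜 →+* ℂ) {m : ℕ} (hm : 1 ≤ m) (N : ℕ → Prog 𝕜 E a b) (F : E → 𝕜) :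
    IsMeagre {x : E | CubicAt m F x ∧
      ∃ w, (N w).Gives F x ∧ 3 * (a : ℝ) ^ 2 * (N w).L < (m : ℝ) ^ omega} := by
  let Z : ℕ → Set E := fun w => {x | CubicAt m F x ∧ (N w).Gives F x ∧
    3 * (a : ℝ) ^ 2 * (N w).L < (m : ℝ) ^ omega}
  have e : {x : E | CubicAt m F x ∧
      ∃ w, (N w).Gives F x ∧ 3 * (a : ℝ) ^ 2 * (N w).L < (m : ℝ) ^ omega} = ⋃ w, Z w := by
    ext x
    simp only [Set.mem_ofPred_eq, Set.mem_iUnion, Z]
    constructor
    · rintro ⟨h1, w, h2⟩
      exact ⟨w, h1, h2⟩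
    · rintro ⟨w, h1, h2⟩
      exact ⟨h1, w, h2⟩
  rw [e]
  refine isMeagre_iUnion fun w => ?_
  by_contra hw
  have hnd : ¬ IsNowhereDense (Z w) := fun h => hw h.isMeagre
  unfold IsNowhereDense at hnd
  obtain ⟨y, hy⟩ := Set.nonempty_iff_ne_empty.mpr hnd
  obtain ⟨x, hx1, hx2⟩ := mem_closure_iff.mp (interior_subset hy) _ isOpen_interior hy
  obtain ⟨⟨hxc, X, Y, Zv, γ, hγ, hT⟩, ⟨hxD, -⟩, hlt⟩ := hx2
  have hcont : ∀ z ∈ (N w).D, ContinuousAt (N w).f z := fun z hz =>
    (aff_contDiff3 (gates_contDiff3 (N w).net hz) _ (N w).out).continuousAt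
  -- `F` is continuous near `x`
  have hFc : ∀ᶠ z in 𝓝 x, ContinuousAt F z := by
    filter_upwards [hxc.eventually (by norm_num)] with z hz
    exact hz.continuousAt
  have hev : (N w).f =ᶠ[𝓝 x] F := by
    filter_upwards [isOpen_interior.mem_nhds hx1, (N w).net.1.mem_nhds hxD, hFc] with z hz1 hz2 hz4
    have hz3 : z ∈ closure (Z w) := interior_subset hz1
    have : NeBot (𝓝[Z w] z) := mem_closure_iff_nhdsWithin_neBot.mp hz3
    have t1 : Tendsto (N w).f (𝓝[Z w] z) (𝓝 ((N w).f z)) :=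
      (hcont z hz2).mono_left nhdsWithin_le_nhds
    have t2 : Tendsto (N w).f (𝓝[Z w] z) (𝓝 (F z)) := by
      refine (hz4.mono_left nhdsWithin_le_nhds).congr' ?_
      filter_upwards [self_mem_nhdsWithin] with y hy
      exact hy.2.1.2.symm
    exact tendsto_nhds_unique t1 t2
  have h1 := lower_near σ (N w).net hxD (N w).out hev hm X Y Zv γ hγ hT
  exact absurd h1 (not_le.mpr hlt)

end Pool.Agent.R562.SC
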