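import Pool.Agent.R562.SC.Hess3
import Pool.Agent.Y538.Net.Main

/-!
# The third derivatives of the functions computed by a network: the terms of the gates
-/

set_option autoImplicit false
set_option linter.unusedSectionVars false

namespace Pool.Agent.R562.SC

open Topology Filter Pool.Agent.Y538.Net Pool.Agent.H515R2.MMR

variable {𝕜 : Type} [NontriviallyNormedField 𝕜] {E : Type} [NormedAddCommGroup E]
  [NormedSpace 𝕜 E] {a b L : ℕ}

lemma aff_contDiff3 {g : ℕ → Fin b → E → 𝕜} {x : E} {l : ℕ}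
    (hg : ∀ s < l, ∀ o, ContDiffAt 𝕜 3 (g s o) x) : ∀ f ∈ Aff g l, ContDiffAt 𝕜 3 f x := by
  intro f hf
  unfold Aff at hf
  induction hf using Submodule.span_induction with
  | mem f hf =>
    rcases hf with ⟨ℓ, c, rfl⟩ | ⟨s, hs, o, rfl⟩
    · exact ℓ.contDiff.contDiffAt.add contDiffAt_const
    · exact hg s hs o
  | zero => exact contDiffAt_const (c := (0 : 𝕜))
  | add f f' _ _ h h' => exact h.add h'
  | smul c f _ h => exact h.const_smul c

lemma gates_contDiff3 {D : Set E} {g : ℕ → Fin b → E → 𝕜} (hnet : IsNet3 a b L D g) {x : E}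
    (hx : x ∈ D) : ∀ s < L, ∀ o, ContDiffAt 𝕜 3 (g s o) x := by
  intro s
  induction s using Nat.strong_induction_on with
  | _ s ih =>
    intro hs o
    obtain ⟨u, φ, hu, hφ⟩ := hnet.2 s hs
    have h1 : ∀ i, ContDiffAt 𝕜 3 (u i) x := fun i =>
      aff_contDiff3 (fun s' hs' o' => ih s' hs' (hs'.trans hs) o') _ (hu i)
    have h2 : ContDiffAt 𝕜 3 (fun y => φ (fun i => u i y) o) x := by
      have h3 : ContDiffAt 𝕜 3 (fun y => (fun i => u i y)) x := contDiffAt_pi.mpr h1
      have h4 := (hφ x hx).1.comp x h3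
      exact (contDiffAt_pi.mp h4) o
    refine h2.congr_of_eventuallyEq ?_
    filter_upwards [hnet.1.mem_nhds hx] with y hy
    exact (hφ y hy).2 o

/-- **The cubic terms contributed by the gates.** -/
theorem net_cubic {D : Set E} {g : ℕ → Fin b → E → 𝕜} (hnet : IsNet3 a b L D g) {x : E}
    (hx : x ∈ D) : ∃ U : ℕ → Fin a → E → 𝕜,
      ∀ f ∈ Aff g L, ∃ w1 w2 w3 : ℕ → Fin a → Fin a → E → 𝕜, ∀ h1 h2 h3, T3 f x h1 h2 h3 =
        ∑ s ∈ Finset.range L, ∑ i, ∑ j, (U s i h1 * U s j h2 * w3 s i j h3 +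
          U s i h1 * U s j h3 * w2 s i j h2 + U s i h2 * U s j h3 * w1 s i j h1) := by
  classical
  have hgd := gates_contDiff3 hnet hx
  have hdata : ∀ s, ∃ (u : Fin a → E → 𝕜), s < L → (∀ i, u i ∈ Aff g s) ∧
      ∃ φ : (Fin a → 𝕜) → Fin b → 𝕜, (∀ o, ContDiffAt 𝕜 3 (fun v => φ v o) (fun i => u i x)) ∧
        ∀ o, g s o =ᶠ[𝓝 x] fun y => φ (fun i => u i y) o := by
    intro s
    by_cases hs : s < L
    swap
    · exact ⟨fun _ _ => 0, fun h => absurd h hs⟩
    obtain ⟨u, φ, hu, hφ⟩ := hnet.2 s hs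
    refine ⟨u, fun _ => ⟨hu, φ, fun o => (contDiffAt_pi.mp (hφ x hx).1) o, fun o => ?_⟩⟩
    filter_upwards [hnet.1.mem_nhds hx] with y hy
    exact (hφ y hy).2 o
  choose u hu using hdata
  let U : ℕ → Fin a → E → 𝕜 := fun s i => fderiv 𝕜 (u s i) x
  refine ⟨U, ?_⟩
  have hu3 : ∀ s < L, ∀ i, ContDiffAt 𝕜 3 (u s i) x := fun s hs i =>
    aff_contDiff3 (fun s' hs' o' => hgd s' (hs'.trans hs) o') _ ((hu s hs).1 i)
  have hu2 : ∀ s < L, ∀ i, ContDiffAt 𝕜 2 (u s i) x := fun s hs i =>
    (hu3 s hs i).of_le (by norm_num)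
  have hcd3 : ∀ l ≤ L, ∀ f ∈ Aff g l, ContDiffAt 𝕜 3 f x := fun l hl =>
    aff_contDiff3 (x := x) (l := l) (g := g) (fun s hs o => hgd s (by omega) o)
  have hcd2 : ∀ l ≤ L, ∀ f ∈ Aff g l, ContDiffAt 𝕜 2 f x := fun l hl f hf =>
    (hcd3 l hl f hf).of_le (by norm_num)
  -- second derivatives
  let S2 : Submodule 𝕜 (E → E → 𝕜) := Submodule.span 𝕜
    {f | ∃ s < L, ∃ i j, f = fun h1 h2 => U s i h1 * U s j h2}
  have h2step : ∀ l ≤ L, (∀ s < l, ∀ o, (fun h1 h2 => H2 (g s o) x h1 h2) ∈ S2) →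
      ∀ f ∈ Aff g l, (fun h1 h2 => H2 f x h1 h2) ∈ S2 := by
    intro l hl hgates f hf
    have hcd := hcd2 l hl
    unfold Aff at hf
    induction hf using Submodule.span_induction with
    | mem f hf =>
      rcases hf with ⟨ℓ, c, rfl⟩ | ⟨s, hs, o, rfl⟩
      · rw [H2_affine]
        exact Submodule.zero_mem _
      · exact hgates s hs o
    | zero =>
      have : H2 (0 : E → 𝕜) x = 0 := by
        have h := H2_affine (E := E) (0 : E →L[𝕜] 𝕜) 0 x
        have e : (fun y : E => (0 : E →L[𝕜] 𝕜) y + 0) = (0 : E → 𝕜) := by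
          funext y; simp
        rw [e] at h
        exact h
      rw [this]
      exact Submodule.zero_mem _
    | add f f' h1 h2 h h' =>
      rw [H2_add (hcd f h1) (hcd f' h2)]
      exact Submodule.add_mem _ (h) (h')
    | smul c f h1 h =>
      rw [H2_smul c (hcd f h1)]
      exact Submodule.smul_mem _ c (h)
  have h2gates : ∀ s < L, ∀ o, (fun h1 h2 => H2 (g s o) x h1 h2) ∈ S2 := by
    intro s
    induction s using Nat.strong_induction_on with
    | _ s ih =>
      intro hs o
      obtain ⟨huA, φ, hφ3, hφe⟩ := hu s hs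
      have h1 : ∀ i, (fun h1 h2 => H2 (u s i) x h1 h2) ∈ S2 := fun i =>
        h2step s hs.le (fun s' hs' o' => ih s' hs' (hs'.trans hs) o') _ (huA i)
      have h2 : (fun h1 h2 => H2 (g s o) x h1 h2) =
          ∑ i, p1 (fun v => φ v o) i (fun i => u s i x) • (fun h1 h2 => H2 (u s i) x h1 h2) +
          ∑ i, ∑ j, p1 (p1 (fun v => φ v o) i) j (fun i => u s i x) •
            (fun h1 h2 => U s j h1 * U s i h2) := by
        funext h1 h2
        rw [H2_congr (hφe o), H2_comp' (hu2 s hs) ((hφ3 o).of_le (by norm_num)) h1 h2]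
        simp only [Pi.add_apply, Finset.sum_apply, Pi.smul_apply, smul_eq_mul, U]
      rw [h2]
      refine Submodule.add_mem _ (Submodule.sum_mem _ fun i _ =>
        Submodule.smul_mem _ _ (h1 i)) (Submodule.sum_mem _ fun i _ =>
          Submodule.sum_mem _ fun j _ => Submodule.smul_mem _ _ ?_)
      exact Submodule.subset_span ⟨s, hs, j, i, rfl⟩
  have h2all : ∀ l ≤ L, ∀ f ∈ Aff g l, (fun h1 h2 => H2 f x h1 h2) ∈ S2 := fun l hl =>
    h2step l hl fun s hs o => h2gates s (by omega) o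
  -- third derivatives
  let G1 : Set (E → E → E → 𝕜) :=
    {f | ∃ s < L, ∃ i j, ∃ w : E → 𝕜, f = fun h1 h2 h3 => U s i h2 * U s j h3 * w h1}
  let G2 : Set (E → E → E → 𝕜) :=
    {f | ∃ s < L, ∃ i j, ∃ w : E → 𝕜, f = fun h1 h2 h3 => U s i h1 * U s j h3 * w h2}
  let G3 : Set (E → E → E → 𝕜) :=
    {f | ∃ s < L, ∃ i j, ∃ w : E → 𝕜, f = fun h1 h2 h3 => U s i h1 * U s j h2 * w h3}
  let S3 : Submodule 𝕜 (E → E → E → 𝕜) := Submodule.span 𝕜 (G1 ∪ G2 ∪ G3)
  have hQ1 : ∀ (w : E → 𝕜) (Q : E → E → 𝕜), Q ∈ S2 → (fun h1 h2 h3 => w h1 * Q h2 h3) ∈ S3 := by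
    intro w Q hQ
    induction hQ using Submodule.span_induction with
    | mem Q hQ =>
      obtain ⟨s, hs, i, j, rfl⟩ := hQ
      refine Submodule.subset_span (Or.inl (Or.inl ⟨s, hs, i, j, w, ?_⟩))
      funext h1 h2 h3
      ring
    | zero =>
      have : (fun h1 h2 h3 : E => w h1 * (0 : E → E → 𝕜) h2 h3) = 0 := by
        funext h1 h2 h3
        simp
      rw [this]
      exact Submodule.zero_mem _
    | add Q Q' _ _ h h' =>
      have : (fun h1 h2 h3 : E => w h1 * (Q + Q') h2 h3) =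
          (fun h1 h2 h3 => w h1 * Q h2 h3) + fun h1 h2 h3 => w h1 * Q' h2 h3 := by
        funext h1 h2 h3
        simp only [Pi.add_apply]
        ring
      rw [this]
      exact Submodule.add_mem _ h h'
    | smul c Q _ h =>
      have : (fun h1 h2 h3 : E => w h1 * (c • Q) h2 h3) =
          c • (fun h1 h2 h3 => w h1 * Q h2 h3) := by
        funext h1 h2 h3
        simp only [Pi.smul_apply, smul_eq_mul]
        ring
      rw [this]
      exact Submodule.smul_mem _ c h
  have hQ2 : ∀ (w : E → 𝕜) (Q : E → E → 𝕜), Q ∈ S2 → (fun h1 h2 h3 => w h2 * Q h1 h3) ∈ S3 := by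
    intro w Q hQ
    induction hQ using Submodule.span_induction with
    | mem Q hQ =>
      obtain ⟨s, hs, i, j, rfl⟩ := hQ
      refine Submodule.subset_span (Or.inl (Or.inr ⟨s, hs, i, j, w, ?_⟩))
      funext h1 h2 h3
      ring
    | zero =>
      have : (fun h1 h2 h3 : E => w h2 * (0 : E → E → 𝕜) h1 h3) = 0 := by
        funext h1 h2 h3
        simp
      rw [this]
      exact Submodule.zero_mem _
    | add Q Q' _ _ h h' =>
      have : (fun h1 h2 h3 : E => w h2 * (Q + Q') h1 h3) =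
          (fun h1 h2 h3 => w h2 * Q h1 h3) + fun h1 h2 h3 => w h2 * Q' h1 h3 := by
        funext h1 h2 h3
        simp only [Pi.add_apply]
        ring
      rw [this]
      exact Submodule.add_mem _ h h'
    | smul c Q _ h =>
      have : (fun h1 h2 h3 : E => w h2 * (c • Q) h1 h3) =
          c • (fun h1 h2 h3 => w h2 * Q h1 h3) := by
        funext h1 h2 h3
        simp only [Pi.smul_apply, smul_eq_mul]
        ring
      rw [this]
      exact Submodule.smul_mem _ c h
  have hQ3 : ∀ (w : E → 𝕜) (Q : E → E → 𝕜), Q ∈ S2 → (fun h1 h2 h3 => Q h1 h2 * w h3) ∈ S3 := by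
    intro w Q hQ
    induction hQ using Submodule.span_induction with
    | mem Q hQ =>
      obtain ⟨s, hs, i, j, rfl⟩ := hQ
      exact Submodule.subset_span (Or.inr ⟨s, hs, i, j, w, rfl⟩)
    | zero =>
      have : (fun h1 h2 h3 : E => (0 : E → E → 𝕜) h1 h2 * w h3) = 0 := by
        funext h1 h2 h3
        simp
      rw [this]
      exact Submodule.zero_mem _
    | add Q Q' _ _ h h' =>
      have : (fun h1 h2 h3 : E => (Q + Q') h1 h2 * w h3) =
          (fun h1 h2 h3 => Q h1 h2 * w h3) + fun h1 h2 h3 => Q' h1 h2 * w h3 := by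
        funext h1 h2 h3
        simp only [Pi.add_apply]
        ring
      rw [this]
      exact Submodule.add_mem _ h h'
    | smul c Q _ h =>
      have : (fun h1 h2 h3 : E => (c • Q) h1 h2 * w h3) =
          c • (fun h1 h2 h3 => Q h1 h2 * w h3) := by
        funext h1 h2 h3
        simp only [Pi.smul_apply, smul_eq_mul]
        ring
      rw [this]
      exact Submodule.smul_mem _ c h
  have h3step : ∀ l ≤ L, (∀ s < l, ∀ o, (fun h1 h2 h3 => T3 (g s o) x h1 h2 h3) ∈ S3) →
      ∀ f ∈ Aff g l, (fun h1 h2 h3 => T3 f x h1 h2 h3) ∈ S3 := by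
    intro l hl hgates f hf
    have hcd := hcd3 l hl
    unfold Aff at hf
    induction hf using Submodule.span_induction with
    | mem f hf =>
      rcases hf with ⟨ℓ, c, rfl⟩ | ⟨s, hs, o, rfl⟩
      · simp only [T3_affine]
        exact Submodule.zero_mem _
      · exact hgates s hs o
    | zero =>
      have : (fun h1 h2 h3 => T3 (0 : E → 𝕜) x h1 h2 h3) = 0 := by
        funext h1 h2 h3
        have h := T3_affine (E := E) (0 : E →L[𝕜] 𝕜) 0 x h1 h2 h3
        have e : (fun y : E => (0 : E →L[𝕜] 𝕜) y + 0) = (0 : E → 𝕜) := by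
          funext y; simp
        rw [e] at h
        exact h
      rw [this]
      exact Submodule.zero_mem _
    | add f f' h1 h2 h h' =>
      have : (fun k1 k2 k3 => T3 (f + f') x k1 k2 k3) =
          (fun k1 k2 k3 => T3 f x k1 k2 k3) + fun k1 k2 k3 => T3 f' x k1 k2 k3 := by
        funext k1 k2 k3
        exact T3_add (hcd f h1) (hcd f' h2) k1 k2 k3
      rw [this]
      exact Submodule.add_mem _ h h'
    | smul c f h1 h =>
      have : (fun k1 k2 k3 => T3 (c • f) x k1 k2 k3) =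
          c • (fun k1 k2 k3 => T3 f x k1 k2 k3) := by
        funext k1 k2 k3
        exact T3_smul c (hcd f h1) k1 k2 k3
      rw [this]
      exact Submodule.smul_mem _ c h
  have h3gates : ∀ s < L, ∀ o, (fun h1 h2 h3 => T3 (g s o) x h1 h2 h3) ∈ S3 := by
    intro s
    induction s using Nat.strong_induction_on with
    | _ s ih =>
      intro hs o
      obtain ⟨huA, φ, hφ3, hφe⟩ := hu s hs
      have k3 : ∀ i, (fun h1 h2 h3 => T3 (u s i) x h1 h2 h3) ∈ S3 := fun i =>
        h3step s hs.le (fun s' hs' o' => ih s' hs' (hs'.trans hs) o') _ (huA i)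
      have k2 : ∀ i, (fun h1 h2 => H2 (u s i) x h1 h2) ∈ S2 := fun i => h2all s hs.le _ (huA i)
      have h2 : (fun h1 h2 h3 => T3 (g s o) x h1 h2 h3) =
          ∑ i, p1 (fun v => φ v o) i (fun i => u s i x) •
            (fun h1 h2 h3 => T3 (u s i) x h1 h2 h3) +
          ∑ i, ∑ j, p1 (p1 (fun v => φ v o) i) j (fun i => u s i x) •
            ((fun h1 h2 h3 => U s j h1 * H2 (u s i) x h2 h3) +
              (fun h1 h2 h3 => H2 (u s j) x h1 h2 * U s i h3) +
              (fun h1 h2 h3 => U s j h2 * H2 (u s i) x h1 h3)) +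
          ∑ i, ∑ j, ∑ k, p1 (p1 (p1 (fun v => φ v o) i) j) k (fun i => u s i x) •
            (fun h1 h2 h3 => U s k h1 * U s j h2 * U s i h3) := by
        funext h1 h2 h3
        rw [T3_congr (hφe o), T3_comp (hu3 s hs) (hφ3 o) h1 h2 h3]
        simp only [Pi.add_apply, Finset.sum_apply, Pi.smul_apply, smul_eq_mul, U]
      rw [h2]
      refine Submodule.add_mem _ (Submodule.add_mem _ (Submodule.sum_mem _ fun i _ =>
        Submodule.smul_mem _ _ (k3 i)) (Submodule.sum_mem _ fun i _ =>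
          Submodule.sum_mem _ fun j _ => Submodule.smul_mem _ _ (Submodule.add_mem _
            (Submodule.add_mem _ (hQ1 _ _ (k2 i)) (hQ3 _ _ (k2 j))) (hQ2 _ _ (k2 i)))))
        (Submodule.sum_mem _ fun i _ => Submodule.sum_mem _ fun j _ =>
          Submodule.sum_mem _ fun k _ => Submodule.smul_mem _ _ ?_)
      exact Submodule.subset_span (Or.inr ⟨s, hs, k, j, _, rfl⟩)
  intro f hf
  have hf3 : (fun h1 h2 h3 => T3 f x h1 h2 h3) ∈ S3 := h3step L le_rfl h3gates f hf
  -- the coefficients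
  have hrep : ∀ ψ ∈ S3, ∃ w1 w2 w3 : ℕ → Fin a → Fin a → E → 𝕜, ∀ h1 h2 h3, ψ h1 h2 h3 =
        ∑ s ∈ Finset.range L, ∑ i, ∑ j, (U s i h1 * U s j h2 * w3 s i j h3 +
          U s i h1 * U s j h3 * w2 s i j h2 + U s i h2 * U s j h3 * w1 s i j h1) := by
    intro ψ hψ
    have hcol : ∀ (s : ℕ) (hs : s < L) (i j : Fin a) (F : ℕ → Fin a → Fin a → 𝕜),
        ∑ s' ∈ Finset.range L, ∑ i', ∑ j', (if s' = s ∧ i' = i ∧ j' = j then F s' i' j' else 0) =
          F s i j := by
      intro s hs i j F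
      rw [Finset.sum_eq_single s, Finset.sum_eq_single i, Finset.sum_eq_single j]
      · simp
      · intro j' _ hj; simp [hj]
      · simp
      · intro i' _ hi; simp [hi]
      · simp
      · intro s' _ hs'; simp [hs']
      · intro h; exact absurd (Finset.mem_range.mpr hs) h
    induction hψ using Submodule.span_induction with
    | mem ψ hψ =>
      rcases hψ with (⟨s, hs, i, j, w, rfl⟩ | ⟨s, hs, i, j, w, rfl⟩) | ⟨s, hs, i, j, w, rfl⟩
      · refine ⟨fun s' i' j' h => if s' = s ∧ i' = i ∧ j' = j then w h else 0, fun _ _ _ _ => 0,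
          fun _ _ _ _ => 0, fun h1 h2 h3 => ?_⟩
        refine (hcol s hs i j (fun s i j => U s i h2 * U s j h3 * w h1)).symm.trans ?_
        refine Finset.sum_congr rfl fun s' _ => Finset.sum_congr rfl fun i' _ =>
          Finset.sum_congr rfl fun j' _ => ?_
        by_cases hc : s' = s ∧ i' = i ∧ j' = j
        · simp only [if_pos hc]; ring
        · simp only [if_neg hc]; ring
      · refine ⟨fun _ _ _ _ => 0, fun s' i' j' h => if s' = s ∧ i' = i ∧ j' = j then w h else 0,
          fun _ _ _ _ => 0, fun h1 h2 h3 => ?_⟩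
        refine (hcol s hs i j (fun s i j => U s i h1 * U s j h3 * w h2)).symm.trans ?_
        refine Finset.sum_congr rfl fun s' _ => Finset.sum_congr rfl fun i' _ =>
          Finset.sum_congr rfl fun j' _ => ?_
        by_cases hc : s' = s ∧ i' = i ∧ j' = j
        · simp only [if_pos hc]; ring
        · simp only [if_neg hc]; ring
      · refine ⟨fun _ _ _ _ => 0, fun _ _ _ _ => 0,
          fun s' i' j' h => if s' = s ∧ i' = i ∧ j' = j then w h else 0, fun h1 h2 h3 => ?_⟩
        refine (hcol s hs i j (fun s i j => U s i h1 * U s j h2 * w h3)).symm.trans ?_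
        refine Finset.sum_congr rfl fun s' _ => Finset.sum_congr rfl fun i' _ =>
          Finset.sum_congr rfl fun j' _ => ?_
        by_cases hc : s' = s ∧ i' = i ∧ j' = j
        · simp only [if_pos hc]; ring
        · simp only [if_neg hc]; ring
    | zero => exact ⟨0, 0, 0, fun h1 h2 h3 => by simp⟩
    | add ψ ψ' _ _ h h' =>
      obtain ⟨w1, w2, w3, hw⟩ := h
      obtain ⟨v1, v2, v3, hv⟩ := h'
      refine ⟨w1 + v1, w2 + v2, w3 + v3, fun h1 h2 h3 => ?_⟩
      rw [Pi.add_apply, Pi.add_apply, Pi.add_apply, hw, hv]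
      simp only [← Finset.sum_add_distrib]
      refine Finset.sum_congr rfl fun s' _ => Finset.sum_congr rfl fun i' _ =>
          Finset.sum_congr rfl fun j' _ => ?_
      simp only [Pi.add_apply]
      ring
    | smul c ψ _ h =>
      obtain ⟨w1, w2, w3, hw⟩ := h
      refine ⟨c • w1, c • w2, c • w3, fun h1 h2 h3 => ?_⟩
      rw [Pi.smul_apply, Pi.smul_apply, Pi.smul_apply, hw, smul_eq_mul]
      simp only [Finset.mul_sum]
      refine Finset.sum_congr rfl fun s' _ => Finset.sum_congr rfl fun i' _ =>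
          Finset.sum_congr rfl fun j' _ => ?_
      simp only [Pi.smul_apply, smul_eq_mul]
      ring
  exact hrep _ hf3

end Pool.Agent.R562.SC
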